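import Mathlib
import Pool.Agent.H65.SPD.FinE

set_option autoImplicit false

namespace Pool.Agent.Results.MP_9c415a_co.FiveQuarters

/-- Let `A` be a nonempty subset of `F_2^n`, `|A| = 2^(n-a)`, `|A+A| = 2^g |A|`.
(1) For every `ε > 0` there is `C` (depending on `ε` only) such that `10A` contains a subspace of dimension at least
`n - C (1+a)^(5/4+ε)`.
(2) For every integer `k ≥ 1` and every `ε > 0` there is `C` (depending on `k`, `ε` only) such that the sumset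
`(2k+2)A` contains a subspace `V` with `dim V ≥ n - a - C (1+g)^(1+1/k+ε)` and `dim V ≥ n - C (1+a)^(1+1/k+ε)`. -/
theorem result :
    (∀ ε : ℝ, 0 < ε → ∃ C : ℝ, 1 ≤ C ∧ ∀ (n : ℕ) (A : Finset (Fin n → ZMod 2)), A.Nonempty →
      ∀ a : ℝ, a = Real.logb 2 ((2 : ℝ) ^ n / (A.card : ℝ)) →
      ∃ V : Submodule (ZMod 2) (Fin n → ZMod 2),
        (n : ℝ) - C * (1 + a) ^ (5 / 4 + ε) ≤ (Module.finrank (ZMod 2) V : ℝ) ∧
        ∀ v ∈ V, ∃ s : Fin 10 → (Fin n → ZMod 2), (∀ i, s i ∈ A) ∧ ∑ i, s i = v) ∧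
    (∀ k : ℕ, 1 ≤ k → ∀ ε : ℝ, 0 < ε → ∃ C : ℝ, 1 ≤ C ∧
      ∀ (n : ℕ) (A : Finset (Fin n → ZMod 2)), A.Nonempty →
      ∀ a g : ℝ, a = Real.logb 2 ((2 : ℝ) ^ n / (A.card : ℝ)) →
      g = Real.logb 2 ((((A ×ˢ A).image (fun u => u.1 + u.2)).card : ℝ) / (A.card : ℝ)) →
      ∃ V : Submodule (ZMod 2) (Fin n → ZMod 2),
        (n : ℝ) - a - C * (1 + g) ^ (1 + 1 / (k : ℝ) + ε) ≤ (Module.finrank (ZMod 2) V : ℝ) ∧
        (n : ℝ) - C * (1 + a) ^ (1 + 1 / (k : ℝ) + ε) ≤ (Module.finrank (ZMod 2) V : ℝ) ∧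
        ∀ v ∈ V, ∃ s : Fin (2 * (k + 1)) → (Fin n → ZMod 2), (∀ i, s i ∈ A) ∧ ∑ i, s i = v) := by
  refine ⟨fun ε hε => ?_, fun k hk ε hε => Pool.Agent.H65.SPD.finE k hk ε hε⟩
  obtain ⟨C, hC, h⟩ := Pool.Agent.H65.SPD.finE 4 (by norm_num) ε hε
  refine ⟨C, hC, fun n A hA a ha => ?_⟩
  obtain ⟨V, -, hV, hs⟩ := h n A hA a _ ha rfl
  have e : (1 : ℝ) + 1 / ((4 : ℕ) : ℝ) + ε = 5 / 4 + ε := by push_cast; ring
  rw [e] at hV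
  exact ⟨V, hV, hs⟩

end Pool.Agent.Results.MP_9c415a_co.FiveQuarters
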