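import Mathlib
import Pool.Agent.H65.SPD.FinD

set_option autoImplicit false

namespace Pool.Agent.Results.MP_9c415a_co.ManySummands

/-- There is an absolute constant `C` such that for all `n` and all nonempty `A` in `F_2^n` with `|A| = 2^(n-a)`,
`|A+A| = 2^g |A|`:
(1) for every `B ≥ 2` and every `k ≥ C (1 + log_2(1+g)/log_2 B)` the sumset `kA` contains a coset of a subspace of
dimension at least `n - a - C B g`;
(2) for every `k ≥ C (1 + log_2(1+a))`, `kA` contains a coset of a subspace of dimension at least `n - C a`;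
(3) for every `ε > 0` and `k ≥ C (1 + 1/ε)`, `kA` contains a coset of a subspace of dimension at least
`n - a - C (1+g)^(1+ε)`. -/
theorem result : ∃ C : ℝ, 1 ≤ C ∧ ∀ (n : ℕ) (A : Finset (Fin n → ZMod 2)), A.Nonempty →
    ∀ a g : ℝ, a = Real.logb 2 ((2 : ℝ) ^ n / (A.card : ℝ)) →
      g = Real.logb 2 ((((A ×ˢ A).image (fun u => u.1 + u.2)).card : ℝ) / (A.card : ℝ)) →
      (∀ B : ℝ, 2 ≤ B → ∀ k : ℕ,
        C * (1 + Real.logb 2 (1 + g) / Real.logb 2 B) ≤ (k : ℝ) →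
        ∃ (V : Submodule (ZMod 2) (Fin n → ZMod 2)) (v : Fin n → ZMod 2),
          (n : ℝ) - a - C * B * g ≤ (Module.finrank (ZMod 2) V : ℝ) ∧
          ∀ w ∈ V, ∃ s : Fin k → (Fin n → ZMod 2), (∀ i, s i ∈ A) ∧ ∑ i, s i = v + w) ∧
      (∀ k : ℕ, C * (1 + Real.logb 2 (1 + a)) ≤ (k : ℝ) →
        ∃ (V : Submodule (ZMod 2) (Fin n → ZMod 2)) (v : Fin n → ZMod 2),
          (n : ℝ) - C * a ≤ (Module.finrank (ZMod 2) V : ℝ) ∧
          ∀ w ∈ V, ∃ s : Fin k → (Fin n → ZMod 2), (∀ i, s i ∈ A) ∧ ∑ i, s i = v + w) ∧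
      (∀ ε : ℝ, 0 < ε → ∀ k : ℕ, C * (1 + 1 / ε) ≤ (k : ℝ) →
        ∃ (V : Submodule (ZMod 2) (Fin n → ZMod 2)) (v : Fin n → ZMod 2),
          (n : ℝ) - a - C * (1 + g) ^ (1 + ε) ≤ (Module.finrank (ZMod 2) V : ℝ) ∧
          ∀ w ∈ V, ∃ s : Fin k → (Fin n → ZMod 2), (∀ i, s i ∈ A) ∧ ∑ i, s i = v + w) :=
  Pool.Agent.H65.SPD.finD

end Pool.Agent.Results.MP_9c415a_co.ManySummands
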