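import Mathlib
import Pool.Agent.TenA.Log2

set_option autoImplicit false

namespace Pool.Agent.Results.MP_9c415a_co.NearQuadratic

/-- (1) Nonempty `A, B` in `F_2^n` of densities `2^(-a)`, `2^(-b)`: `A + B + A + B` contains a subspace of codimension
at most `2^25 (1+a)(1+b)(1+log_2(1+min(a,b)))^3`. (2) The `10`-fold sumset of a nonempty set `A` of density `2^(-a)`
contains a subspace of codimension at most `2^25 (1+a)^2 (1+log_2(1+a))^3`. -/
theorem result (n : ℕ) :
    (∀ A B : Finset (Fin n → ZMod 2), A.Nonempty → B.Nonempty → ∀ a b : ℝ,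
      a = Real.logb 2 ((2 : ℝ) ^ n / (A.card : ℝ)) → b = Real.logb 2 ((2 : ℝ) ^ n / (B.card : ℝ)) →
      ∃ V : Submodule (ZMod 2) (Fin n → ZMod 2),
        (n : ℝ) - 2 ^ 25 * (1 + a) * (1 + b) * (1 + Real.logb 2 (1 + min a b)) ^ 3
          ≤ (Module.finrank (ZMod 2) V : ℝ) ∧
        ∀ v ∈ V, ∃ x ∈ A, ∃ y ∈ B, ∃ x' ∈ A, ∃ y' ∈ B, x + y + x' + y' = v) ∧
    (∀ A : Finset (Fin n → ZMod 2), A.Nonempty → ∀ a : ℝ,
      a = Real.logb 2 ((2 : ℝ) ^ n / (A.card : ℝ)) →
      ∃ V : Submodule (ZMod 2) (Fin n → ZMod 2),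
        (n : ℝ) - 2 ^ 25 * (1 + a) ^ 2 * (1 + Real.logb 2 (1 + a)) ^ 3
          ≤ (Module.finrank (ZMod 2) V : ℝ) ∧
        ∀ v ∈ V, ∃ s : Fin 10 → (Fin n → ZMod 2), (∀ i, s i ∈ A) ∧ ∑ i, s i = v) := by
  constructor
  · rintro A B hA hB a b rfl rfl
    exact Pool.TenA.log2_version A B hA hB
  · rintro A hA a rfl
    obtain ⟨V, h1, h2⟩ := Pool.TenA.log2_version A A hA hA
    refine ⟨V, ?_, fun v hv => ?_⟩
    · rw [min_self] at h1
      rw [sq, ← mul_assoc]
      exact h1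
    · obtain ⟨x, hx, y, hy, x', hx', y', hy', h⟩ := h2 v hv
      obtain ⟨z, hz⟩ := hA
      refine ⟨![x, y, x', y', z, z, z, z, z, z], ?_, ?_⟩
      · intro i
        fin_cases i <;> simp [hx, hy, hx', hy', hz]
      · rw [← h]
        have hzz : z + z = 0 := Pool.TenA.add_self' z
        simp only [Fin.sum_univ_succ, Matrix.cons_val_zero, Matrix.cons_val_succ, Fin.sum_univ_zero,
          Finset.univ_eq_empty, Finset.sum_empty]
        have e : z + (z + (z + (z + (z + (z + 0))))) = (z + z) + ((z + z) + (z + z)) := by abel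
        simp only [Matrix.cons_val, add_zero] at e ⊢
        calc _ = (x + y + x' + y') + ((z + z) + ((z + z) + (z + z))) := by abel
          _ = _ := by rw [hzz]; simp

end Pool.Agent.Results.MP_9c415a_co.NearQuadratic
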