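import Mathlib
import Pool.Agent.TenA.Rel

set_option autoImplicit false

namespace Pool.Agent.Results.MP_9c415a_co.SmallDoubling

open scoped Pointwise

/-- A nonempty set `A` in `F_2^n` of density `2^(-a)` and doubling `|A+A| = 2^g |A|`: the sumset `4A` (hence `10A`)
contains a subspace of codimension at most `a + 2^32 (1+g)^2 (1+log_2(1+g))^3`. -/
theorem result (n : ℕ) (A : Finset (Fin n → ZMod 2)) (hA : A.Nonempty) (a g : ℝ)
    (ha : a = Real.logb 2 ((2 : ℝ) ^ n / (A.card : ℝ)))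
    (hg : g = Real.logb 2 (((A + A).card : ℝ) / (A.card : ℝ))) :
    ∃ V : Submodule (ZMod 2) (Fin n → ZMod 2),
      (n : ℝ) - (a + 2 ^ 32 * (1 + g) ^ 2 * (1 + Real.logb 2 (1 + g)) ^ 3)
        ≤ (Module.finrank (ZMod 2) V : ℝ) ∧
      (∀ v ∈ V, ∃ x ∈ A, ∃ y ∈ A, ∃ x' ∈ A, ∃ y' ∈ A, x + y + x' + y' = v) ∧
      (∀ v ∈ V, ∃ s : Fin 10 → (Fin n → ZMod 2), (∀ i, s i ∈ A) ∧ ∑ i, s i = v) := by
  subst ha hg
  obtain ⟨V, h1, h2⟩ := Pool.TenA.rel_log2 A hA
  refine ⟨V, ?_, h2, fun v hv => ?_⟩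
  · have hc : (0 : ℝ) < A.card := by exact_mod_cast hA.card_pos
    have e : Real.logb 2 ((2 : ℝ) ^ n / (A.card : ℝ)) = n - Real.logb 2 (A.card : ℝ) := by
      rw [Real.logb_div (by positivity) hc.ne', Real.logb_pow, Real.logb_self_eq_one one_lt_two, mul_one]
    rw [e]
    linarith
  · obtain ⟨x, hx, y, hy, x', hx', y', hy', h⟩ := h2 v hv
    obtain ⟨z, hz⟩ := hA
    refine ⟨![x, y, x', y', z, z, z, z, z, z], ?_, ?_⟩
    · intro i
      fin_cases i <;> simp [hx, hy, hx', hy', hz]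
    · rw [← h]
      have hzz : z + z = 0 := Pool.TenA.add_self' z
      simp only [Fin.sum_univ_succ, Matrix.cons_val_zero, Matrix.cons_val_succ, Fin.sum_univ_zero,
        Finset.univ_eq_empty, Finset.sum_empty]
      simp only [Matrix.cons_val, add_zero]
      calc _ = (x + y + x' + y') + ((z + z) + ((z + z) + (z + z))) := by abel
        _ = _ := by rw [hzz]; simp

end Pool.Agent.Results.MP_9c415a_co.SmallDoubling
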